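import Pool.Agent.Helper66.InvK

set_option autoImplicit false

open Set Filter Topology MeasureTheory

namespace Pool.Agent.Results.MP_19d7db_an.AlmostAllHit

open Pool.Agent.Helper66.Bil

/-- Let `T` be a polygon, `A` the set of the sides that are replaced by curves in the polygon, and
`e` a vector such that from the inner points of all neutral sides (those not in `A`) one can move a
bit in the direction `e` without leaving the polygon. Then there is a countable set `C` of directions
such that in each table `Y` obtained in this way every infinite billiard trajectory which is never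
reflected at one of the curves starts in a direction in `C`; in particular such trajectories start,
over each curve `f` (for example the boundary of `Y`), in a null set of states. -/
theorem result (T : Table) (A : Set (Fin T.N)) (e : ℂ) (he : e ≠ 0)
    (h : ∀ j ∉ A, ∀ x ∈ openSegment ℝ (T.a j) (T.b j), ∀ᶠ t : ℝ in 𝓝[>] 0, x + t * e ∈ T.P) :
    ∃ C : Set Circle, C.Countable ∧ ∀ Y ⊆ T.P,
      (∀ γ : NeutralTrajectory T A Y, γ.u 0 ∈ C) ∧
      ∀ f : ℝ → ℂ, volume {q : ℝ × ℝ | ∃ γ : NeutralTrajectory T A Y,
        γ.c 0 = f q.1 ∧ γ.u 0 = Circle.exp q.2} = 0 := by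
  obtain ⟨C, hC, h1⟩ := neutral_general T A he h
  refine ⟨C, hC, fun Y hY => ⟨h1 Y hY, fun f => ?_⟩⟩
  refine measure_mono_null ?_ (null_of_countable hC f
    (Y := {p : ℂ × Circle | ∃ γ : NeutralTrajectory T A Y, γ.c 0 = p.1 ∧ γ.u 0 = p.2}) ?_)
  · rintro q ⟨γ, h2, h3⟩
    exact ⟨γ, h2, h3⟩
  · rintro p ⟨γ, _, h3⟩
    rw [← h3]
    exact h1 Y hY γ

end Pool.Agent.Results.MP_19d7db_an.AlmostAllHit
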